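import Pool.Agent.Lib.CX2.Inst

/-!
# Cayley complexes of groups of geometric dimension two: contractible complexes with free action

(MP_16fe43_al, Theorem W, block CXB)
-/

set_option autoImplicit false

namespace Pool.Agent.Lib.CXB

open Pool.Agent.Lib.CX2 (Cx exists_cx)
open Pool.Agent.Lib.GD2 (GeomDimLETwo)

/-- a group of geometric dimension at most two acts freely on a contractible complex of dimension two -/
theorem exists_free_cx {G : Type} [Group G] (hG : GeomDimLETwo G) :
    ∃ (V E F : Type) (_ : MulAction G V) (_ : MulAction G E) (_ : MulAction G F) (X : Cx V E F),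
      X.Act G ∧ X.Contr ∧ (∀ (g : G) (v : V), g • v = v → g = 1) ∧
      (∀ (g : G) (e : E), g • e = e → g = 1) ∧ ∀ (g : G) (f : F), g • f = f → g = 1 := by
  obtain ⟨V, E, F, iV, iE, iF, X, h1, h2, hV, hE, hF⟩ := exists_cx (MonoidHom.id G) hG
  refine ⟨V, E, F, iV, iE, iF, X, h1, h2, fun g v h => ?_, fun g e h => ?_, fun g f h => ?_⟩
  · have h3 : g ∈ (MonoidHom.id G).ker := hV v ▸ MulAction.mem_stabilizer_iff.2 h
    exact h3
  · have h3 : g ∈ (MonoidHom.id G).ker := hE e ▸ MulAction.mem_stabilizer_iff.2 h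
    exact h3
  · have h3 : g ∈ (MonoidHom.id G).ker := hF f ▸ MulAction.mem_stabilizer_iff.2 h
    exact h3

end Pool.Agent.Lib.CXB
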